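import Pool.Agent.W622.ETC.Stm

set_option autoImplicit false

namespace Pool.Agent.W240.ELT

open Pool.Agent.W622.ETC Module

/-- the star step: a form of `A` killing `d ≠ 0` with a value in `M` at `c` -/
theorem star (hNF : S_NF) (hSPLIT : S_SPLIT) (hBLK : S_BLK) (hA3 : S_A3)
    (V : Type) [AddCommGroup V] [Module (ZMod 2) V] [Finite V] (A : Fam V) (M : DSub V)
    (hMC : MC A) (hM : MaxCone A M) (p : Dl V) (hp : Cone A M p) (c : V) (f : Dl V) (hf : f ∈ M)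
    (ζ : Frm V) (hζ : ζ ∈ A) (d : V) (hd : d ≠ 0) (hζd : ζ d = 0) (hζc : ζ c = f)
    (hor : M ≤ ann d ∨ p d = 0) : ∃ η ∈ res A M, η c = f := by
  obtain ⟨s, hs⟩ := (hNF V (res A (ann d)) (hMC.el (ann d) (ann_ne_top hd))).2
  have hX : M ⊓ ann d ∈ s := by
    by_cases hMd : M ≤ ann d
    · rw [inf_eq_left.mpr hMd]
      exact hBLK V A M (ann d) s hMC.alt (Or.inl hM) hMd hs
    · exact hA3 V A M p d s hMC hM hp hd (hor.resolve_left hMd) hMd hs
  obtain ⟨h1, h2, -⟩ := hSPLIT V (res A (ann d)) s {M ⊓ ann d} (hMC.alt.res _) hs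
    (Set.singleton_subset_iff.mpr hX)
  have hζ' : ζ ∈ res A (ann d) := (mem_res_ann hMC.alt).mpr ⟨hζ, hζd⟩
  rw [h1] at hζ'
  obtain ⟨ζ₁, hζ₁, ζ₂, hζ₂, hsum⟩ := Submodule.mem_sup.mp hζ'
  rw [sSup_singleton] at hζ₁ h2
  have hfd : f d = 0 := by
    rw [← hζc, (hMC.alt ζ hζ).symm, hζd]; rfl
  have hfX : f ∈ M ⊓ ann d := ⟨hf, hfd⟩
  have hζ₁c : ζ₁ c ∈ M ⊓ ann d := hζ₁.2 c
  have hζ₂c : ζ₂ c ∈ sSup (s \ {M ⊓ ann d}) := hζ₂.2 c
  have hc : ζ₁ c + ζ₂ c = f := by rw [← LinearMap.add_apply, hsum, hζc]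
  have hζ₂c' : ζ₂ c ∈ M ⊓ ann d := by
    have : ζ₂ c = ζ₁ c + f := by rw [← hc, add_cancel_left']
    rw [this]
    exact Submodule.add_mem _ hζ₁c hfX
  have h0 : ζ₂ c = 0 := by
    have : ζ₂ c ∈ (M ⊓ ann d) ⊓ sSup (s \ {M ⊓ ann d}) := ⟨hζ₂c', hζ₂c⟩
    rw [h2.eq_bot] at this
    exact (Submodule.mem_bot _).mp this
  refine ⟨ζ₁, ⟨hζ₁.1.1, fun a => (hζ₁.2 a).1⟩, ?_⟩
  rw [← hc, h0, add_zero]

/-- the functionals killing `c` and `d` -/
def NN {V : Type} [AddCommGroup V] [Module (ZMod 2) V] (c d : V) : Dl V →ₗ[ZMod 2] (ZMod 2 × ZMod 2) :=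
  LinearMap.prod (LinearMap.applyₗ c) (LinearMap.applyₗ d)

theorem rkle (V : Type) [AddCommGroup V] [Module (ZMod 2) V] [Finite V]
    (p f : Dl V) (c d : V) (hc : c ≠ 0) (hpc : p c = 0) (hpd : p d = 1) :
    finrank (ZMod 2) (LinearMap.ker (NN c d)) ≤ finrank (ZMod 2) (LinearMap.ker (LinearMap.prod p f)) := by
  have hψ : LinearMap.range (NN c d) = ⊤ := by
    obtain ⟨g1, hg1⟩ := exists_ne_one hc
    have hp' : NN c d p = (0, 1) := by
      show (p c, p d) = (0, 1)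
      rw [hpc, hpd]
    have h10 : ∃ h : Dl V, NN c d h = (1, 0) := by
      rcases z01 (g1 d) with h | h
      · exact ⟨g1, by show (g1 c, g1 d) = (1, 0); rw [hg1, h]⟩
      · refine ⟨g1 + p, ?_⟩
        show ((g1 + p) c, (g1 + p) d) = (1, 0)
        rw [LinearMap.add_apply, LinearMap.add_apply, hg1, h, hpc, hpd]
        rfl
    obtain ⟨h, hh⟩ := h10
    rw [LinearMap.range_eq_top]
    rintro ⟨x, y⟩
    refine ⟨x • h + y • p, ?_⟩
    rw [map_add, map_smul, map_smul, hh, hp']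
    simp
  have e1 := LinearMap.finrank_range_add_finrank_ker (NN c d)
  have e2 := LinearMap.finrank_range_add_finrank_ker (LinearMap.prod p f)
  rw [hψ, finrank_top] at e1
  have e3 : finrank (ZMod 2) (LinearMap.range (LinearMap.prod p f)) ≤
      finrank (ZMod 2) (ZMod 2 × ZMod 2) := Submodule.finrank_le _
  have e4 : finrank (ZMod 2) (Dl V) = finrank (ZMod 2) V := finrank_Dl
  omega

theorem card_fib {F N : Type} [Add F] [AddCommGroup N] [DecidableEq N] (B : Finset F) (T : F → N)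
    (hB : ∀ x ∈ B, ∀ y ∈ B, x + y ∈ B) (hF : ∀ x y : F, x + y + y = x) (hN : ∀ x : N, x + x = 0)
    (hT : ∀ x y, T (x + y) = T x + T y) :
    (B.filter (fun x => T x = 0)).card * (B.image T).card = B.card := by
  rw [Finset.card_eq_sum_card_image T B, mul_comm, ← smul_eq_mul, ← Finset.sum_const]
  refine Finset.sum_congr rfl fun y hy => ?_
  obtain ⟨w, hw, rfl⟩ := Finset.mem_image.mp hy
  refine Finset.card_bij (fun x _ => x + w) ?_ ?_ ?_
  · intro x hx
    rw [Finset.mem_filter] at hx ⊢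
    exact ⟨hB x hx.1 w hw, by rw [hT, hx.2, zero_add]⟩
  · intro x _ x' _ h
    have h' : x + w = x' + w := h
    rw [← hF x w, h', hF]
  · intro x hx
    rw [Finset.mem_filter] at hx
    refine ⟨x + w, ?_, hF x w⟩
    rw [Finset.mem_filter]
    exact ⟨hB x hx.1 w hw, by rw [hT, hx.2, hN]⟩

/-- abstract counting -/
theorem count_gen {F N K : Type} [Add F] [AddCommGroup N] [DecidableEq N] [DecidableEq F]
    [Fintype K] (B : Finset F) (T : K → F → N)
    (hB : ∀ x ∈ B, ∀ y ∈ B, x + y ∈ B) (hF : ∀ x y : F, x + y + y = x) (hN : ∀ x : N, x + x = 0)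
    (hT : ∀ e x y, T e (x + y) = T e x + T e y)
    (hrk : ∀ e, (B.image (T e)).card ≤ Fintype.card K)
    (ζ : K → F) (z : F) (hζ : ∀ e, ∀ ω ∈ B, ζ e + ω + z ∈ B)
    (hinj : ∀ e e' ω ω', ω ∈ B → ω' ∈ B → T e ω = 0 → T e' ω' = 0 → ζ e + ω = ζ e' + ω' →
      e = e' ∧ ω = ω')
    (o : F) (ho : o ∈ B) (hTo : ∀ e, T e o = 0)
    (e₀ : K) : Fintype.card K ≤ (B.image (T e₀)).card := by
  classical
  have hsum : ∑ e : K, (B.filter (fun x => T e x = 0)).card ≤ B.card := by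
    rw [← Finset.card_sigma]
    refine Finset.card_le_card_of_injOn (fun x => ζ x.1 + x.2 + z) ?_ ?_
    · rintro ⟨e, ω⟩ hx
      rw [Finset.mem_coe, Finset.mem_sigma] at hx
      exact hζ e ω (Finset.mem_filter.mp hx.2).1
    · rintro ⟨e, ω⟩ hx ⟨e', ω'⟩ hx' h
      rw [Finset.mem_coe, Finset.mem_sigma] at hx hx'
      have h' : ζ e + ω + z = ζ e' + ω' + z := h
      have h1 : ζ e + ω = ζ e' + ω' := by rw [← hF (ζ e + ω) z, h', hF]
      obtain ⟨h2, h3⟩ := hinj e e' ω ω' (Finset.mem_filter.mp hx.2).1 (Finset.mem_filter.mp hx'.2).1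
        (Finset.mem_filter.mp hx.2).2 (Finset.mem_filter.mp hx'.2).2 h1
      subst h2 h3
      rfl
  by_contra hlt
  push Not at hlt
  have hs : ∑ e : K, B.card < ∑ e : K, (B.filter (fun x => T e x = 0)).card * Fintype.card K := by
    refine Finset.sum_lt_sum ?_ ⟨e₀, Finset.mem_univ _, ?_⟩
    · intro e _
      rw [← card_fib B (T e) hB hF hN (hT e)]
      exact Nat.mul_le_mul_left _ (hrk e)
    · rw [← card_fib B (T e₀) hB hF hN (hT e₀)]
      exact Nat.mul_lt_mul_of_pos_left hlt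
        (Finset.card_pos.mpr ⟨o, Finset.mem_filter.mpr ⟨ho, hTo e₀⟩⟩)
  rw [← Finset.sum_mul, Finset.sum_const, Finset.card_univ, smul_eq_mul, mul_comm] at hs
  exact absurd (Nat.mul_le_mul_right (Fintype.card K) hsum) (not_le.mpr hs)

/-- counting step -/
theorem count (V : Type) [AddCommGroup V] [Module (ZMod 2) V] [Finite V] (A : Fam V)
    (p f : Dl V) (c d₀ : V) (hc : c ≠ 0) (hpc : p c = 0) (hpd : p d₀ = 1) (hfd : f d₀ = 0)
    (hex : ∀ d : V, p d = 1 → f d = 0 → ∃ ζ ∈ A, ζ c = f ∧ ζ d = 0)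
    (hdis : ∀ ζ ∈ A, ζ c = f → ∀ d : V, d ≠ 0 → p d = 0 → ζ d ≠ 0) (hA : AltFam A)
    (g : Dl V) (hgc : g c = 0) (hgd : g d₀ = 0) : ∃ ω ∈ res A (ann c), ω d₀ = g := by
  classical
  have : Fintype (LinearMap.ker (LinearMap.prod p f)) := Fintype.ofFinite _
  have : ∀ d, Fintype (LinearMap.ker (NN c d)) := fun d => Fintype.ofFinite _
  have hK : ∀ e : LinearMap.ker (LinearMap.prod p f), p e.1 = 0 ∧ f e.1 = 0 := by
    intro e
    have h := e.2
    have h' : (p e.1, f e.1) = ((0 : ZMod 2), (0 : ZMod 2)) := h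
    exact Prod.mk.inj h'
  obtain ⟨B, hB⟩ : ∃ B : Finset (Frm V), ∀ ω, ω ∈ B ↔ ω ∈ A ∧ ω c = 0 :=
    ⟨(Set.toFinite {ω : Frm V | ω ∈ A ∧ ω c = 0}).toFinset, fun ω => by
      rw [Set.Finite.mem_toFinset]; rfl⟩
  obtain ⟨N, hN⟩ : ∃ N : V → Finset (Dl V), ∀ d g, g ∈ N d ↔ g c = 0 ∧ g d = 0 :=
    ⟨fun d => (Set.toFinite {g : Dl V | g c = 0 ∧ g d = 0}).toFinset, fun d g => by
      rw [Set.Finite.mem_toFinset]; rfl⟩
  have hNcard : ∀ d : V, p d = 1 →
      (N d).card ≤ Fintype.card (LinearMap.ker (LinearMap.prod p f)) := by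
    intro d hd
    have h1 : (N d).card = Fintype.card (LinearMap.ker (NN c d)) := by
      rw [← Fintype.card_coe]
      refine Fintype.card_congr ⟨fun x => ⟨x.1, ?_⟩, fun x => ⟨x.1, ?_⟩, fun x => rfl, fun x => rfl⟩
      · have := (hN d x.1).mp x.2
        show (x.1 c, x.1 d) = 0
        rw [this.1, this.2]; rfl
      · have h' : (x.1 c, x.1 d) = ((0 : ZMod 2), (0 : ZMod 2)) := x.2
        exact (hN d x.1).mpr (Prod.mk.inj h')
    rw [h1, ← Nat.card_eq_fintype_card, ← Nat.card_eq_fintype_card,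
      Module.natCard_eq_pow_finrank (K := ZMod 2) (V := LinearMap.ker (NN c d)),
      Module.natCard_eq_pow_finrank (K := ZMod 2) (V := LinearMap.ker (LinearMap.prod p f))]
    exact Nat.pow_le_pow_right (by simp) (rkle V p f c d hc hpc hd)
  have hran : ∀ d : V, B.image (fun ω => ω d) ⊆ N d := by
    intro d x hx
    obtain ⟨ω, hω, rfl⟩ := Finset.mem_image.mp hx
    have h1 := (hB ω).mp hω
    rw [hN]
    exact ⟨by rw [(hA ω h1.1).symm, h1.2]; rfl, hA ω h1.1 d⟩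
  have hD : ∀ e : LinearMap.ker (LinearMap.prod p f), p (d₀ + e.1) = 1 ∧ f (d₀ + e.1) = 0 := by
    intro e
    rw [map_add, map_add, hpd, hfd, (hK e).1, (hK e).2]
    simp
  choose ζ hζA hζc hζd using fun e : LinearMap.ker (LinearMap.prod p f) =>
    hex (d₀ + e.1) (hD e).1 (hD e).2
  have hmain := count_gen (K := LinearMap.ker (LinearMap.prod p f)) B
    (fun e ω => ω (d₀ + e.1)) (by
      intro x hx y hy
      rw [hB] at hx hy ⊢
      exact ⟨A.add_mem hx.1 hy.1, by rw [LinearMap.add_apply, hx.2, hy.2, add_zero]⟩)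
    add_cancel' vadd (fun e x y => rfl)
    (fun e => (Finset.card_le_card (hran _)).trans (hNcard _ (hD e).1)) ζ (ζ 0) (by
      intro e ω hω
      rw [hB] at hω ⊢
      exact ⟨A.add_mem (A.add_mem (hζA _) hω.1) (hζA _), by
        rw [LinearMap.add_apply, LinearMap.add_apply, hζc, hζc, hω.2, add_zero, vadd]⟩) (by
      intro e e' ω ω' hωB hωB' hω hω' h1
      have hω : ω (d₀ + e.1) = 0 := hω
      have hω' : ω' (d₀ + e'.1) = 0 := hω'
      have h2 : (ζ e + ω) (d₀ + e.1) = 0 := by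
        rw [LinearMap.add_apply, hζd, hω, add_zero]
      have h3 : (ζ e + ω) (d₀ + e'.1) = 0 := by
        rw [h1, LinearMap.add_apply, hζd, hω', add_zero]
      have h4 : (ζ e + ω) (e.1 + e'.1) = 0 := by
        have : e.1 + e'.1 = (d₀ + e.1) + (d₀ + e'.1) := by
          have : (d₀ + e.1) + (d₀ + e'.1) = (d₀ + d₀) + (e.1 + e'.1) := by abel
          rw [this, vadd, zero_add]
        rw [this, map_add, h2, h3, add_zero]
      have hcc : (ζ e + ω) c = f := by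
        rw [LinearMap.add_apply, hζc, ((hB ω).mp hωB).2, add_zero]
      have hee : e.1 + e'.1 = 0 := by
        by_contra hne
        exact hdis _ (A.add_mem (hζA e) ((hB ω).mp hωB).1) hcc _ hne
          (by rw [map_add, (hK e).1, (hK e').1, add_zero]) h4
      have hee' : e = e' := Subtype.ext (add_eq_zero'.mp hee)
      subst hee'
      refine ⟨rfl, ?_⟩
      rw [← add_cancel_left' (ζ e) ω, h1, add_cancel_left'])
    0 ((hB 0).mpr ⟨A.zero_mem, rfl⟩) (fun e => rfl) 0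
  have hd0 : d₀ + ((0 : LinearMap.ker (LinearMap.prod p f)) : V) = d₀ := by
    rw [ZeroMemClass.coe_zero, add_zero]
  rw [hd0] at hmain
  have heq := Finset.eq_of_subset_of_card_le (hran d₀) ((hNcard d₀ hpd).trans hmain)
  have hg : g ∈ N d₀ := (hN d₀ g).mpr ⟨hgc, hgd⟩
  rw [← heq] at hg
  obtain ⟨ω, hω, hωg⟩ := Finset.mem_image.mp hg
  exact ⟨ω, (mem_res_ann hA).mpr ((hB ω).mp hω), hωg⟩

theorem t_A4 (hLU : S_LU) (hRIG1 : S_RIG1) (hST0 : S_ST0) (hNF : S_NF) (hSPLIT : S_SPLIT)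
    (hBLK : S_BLK) (hA3 : S_A3) : S_A4 := by
  intro V _ _ _ A M hMC hM c ζ₀ hζ₀ hζ₀c
  by_contra hne
  obtain ⟨p, hp⟩ := hM.1
  obtain ⟨h3, hpM, hp0, hpw⟩ := id hp
  obtain ⟨f, hf⟩ : ∃ f : Dl V, f = ζ₀ c := ⟨_, rfl⟩
  rw [← hf] at hne hζ₀c
  have hf0 : f ≠ 0 := by
    rintro rfl
    exact hne ⟨0, Submodule.zero_mem _, rfl⟩
  have hc0 : c ≠ 0 := by
    rintro rfl
    exact hf0 (by rw [hf, map_zero])
  have hfc : f c = 0 := by rw [hf]; exact hMC.alt ζ₀ hζ₀ c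
  have hstar : ∀ ζ ∈ A, ζ c = f → ∀ d : V, d ≠ 0 → p d = 0 → ζ d ≠ 0 := by
    intro ζ hζ hζc d hd hpd hζd
    exact hne (star hNF hSPLIT hBLK hA3 V A M hMC hM p hp c f hζ₀c ζ hζ d hd hζd hζc (Or.inr hpd))
  have hlink : ∀ a : V, (∃ ω ∈ res A M, ω a = f) → p (a + c) = 1 ∧
      ∃ ζ ∈ A, ζ c = f ∧ ζ (a + c) = 0 := by
    rintro a ⟨ω, hω, hωa⟩
    have hac : a + c ≠ 0 := by
      intro h
      have : a = c := add_eq_zero'.mp h
      exact hne ⟨ω, hω, this ▸ hωa⟩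
    obtain ⟨ζ, hζ, hζa, hζc⟩ := hMC.her.linked ω hω.1 ζ₀ hζ₀ a c (by rw [hωa, hf])
    rw [hωa] at hζa hζc
    have hk : ζ (a + c) = 0 := by rw [map_add, hζa, hζc, vadd]
    refine ⟨?_, ζ, hζ, hζc, hk⟩
    by_contra h
    exact hstar ζ hζ hζc (a + c) hac (z_ne' h) hk
  have hwM : ∀ g ∈ M, wd p g ∈ res A M := by
    intro g hg
    refine ⟨hpw g hg, fun a => ?_⟩
    rw [wd_apply]
    exact Submodule.add_mem _ (Submodule.smul_mem _ _ hg) (Submodule.smul_mem _ _ hpM)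
  have hfp : f ≠ p := by
    rintro rfl
    have : ∃ g ∈ M, g ∉ Submodule.span (ZMod 2) {f} := by
      by_contra hcon
      push Not at hcon
      have h1 : M ≤ Submodule.span (ZMod 2) {f} := fun g hg => hcon g hg
      have h2 := Submodule.finrank_mono h1
      rw [finrank_span_singleton hp0] at h2
      omega
    obtain ⟨g, hg, hgs⟩ := this
    obtain ⟨a, ha, hga⟩ := exists_coann hgs
    have hfa : f a = 0 := ha f (Submodule.mem_span_singleton_self f)
    have := (hlink a ⟨wd f g, hwM g hg, by rw [wd_apply, hfa, hga, zero_smul, one_smul, zero_add]⟩).1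
    rw [map_add, hfa, hfc] at this
    simp at this
  obtain ⟨d₀, hd₀, hpd₀⟩ : ∃ d : V, f d = 0 ∧ p d = 1 := by
    have : p ∉ Submodule.span (ZMod 2) {f} := by
      rw [span_one_mem]
      rintro (h | h)
      · exact hp0 h
      · exact hfp h.symm
    obtain ⟨a, ha, hpa⟩ := exists_coann this
    exact ⟨a, ha f (Submodule.mem_span_singleton_self f), hpa⟩
  have hD : ∀ d : V, p d = 1 → f d = 0 → ∃ ω ∈ res A M, ω d = f := by
    intro d hd hfd
    exact ⟨wd p f, hwM f hζ₀c, by rw [wd_apply, hd, hfd, zero_smul, one_smul, add_zero]⟩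
  have hpc : p c = 0 := by
    have := (hlink d₀ (hD d₀ hpd₀ hd₀)).1
    rw [map_add, hpd₀] at this
    simpa using this
  have hex : ∀ d : V, p d = 1 → f d = 0 → ∃ ζ ∈ A, ζ c = f ∧ ζ d = 0 := by
    intro d hd hfd
    have h := (hlink (d + c) (hD (d + c) (by rw [map_add, hd, hpc, add_zero])
      (by rw [map_add, hfd, hfc, add_zero]))).2
    rw [add_cancel'] at h
    exact h
  have hfull := count V A p f c d₀ hc0 hpc hpd₀ hd₀ hex hstar hMC.alt
  obtain ⟨q, hq, hqd, hqw⟩ := hRIG1 V (res A (ann c)) (ann c) d₀ (hMC.alt.res _)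
    (hMC.her.res _).linked (hLU V _ (hMC.alt.res _) (hMC.her.res _)) (supp_res_le _ _)
    ⟨p, hpc, hpd₀⟩ (fun g hg hgd => hfull g hg hgd)
  refine hST0 V A c q hMC hc0 ?_ hq (fun g hg => (hqw g hg).1)
  rintro rfl
  simp at hqd

end Pool.Agent.W240.ELT
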